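import Pool.Agent.helper76.UF.Spec

/-!
# Row uf:TBD (MP_37e5fa_nt): the squared length of a product of elements `a - x^t`
-/

set_option autoImplicit false

namespace Pool.Agent.UF

open Finset Polynomial NumberField

/-- multiplication by `x` -/
private theorem TBD_mul (M : ℕ) {R : Type} [CommRing R] (x : R) (hx : x ^ (M + 1) = -1) (c : ℕ → ℤ) :
    ∃ c' : ℕ → ℤ, x * (∑ i ∈ range (M + 1), (c i : R) * x ^ i) = ∑ i ∈ range (M + 1), (c' i : R) * x ^ i ∧
      ∑ i ∈ range (M + 1), (c' i) ^ 2 = ∑ i ∈ range (M + 1), (c i) ^ 2 := by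
  refine ⟨fun i => if i = 0 then -c M else c (i - 1), ?_, ?_⟩
  · rw [Finset.sum_range_succ (fun i => (c i : R) * x ^ i), Finset.sum_range_succ', mul_add, Finset.mul_sum]
    have h1 : ∑ i ∈ range M, x * ((c i : R) * x ^ i) =
        ∑ i ∈ range M, (((fun i => if i = 0 then -c M else c (i - 1)) (i + 1) : ℤ) : R) * x ^ (i + 1) := by
      refine Finset.sum_congr rfl (fun i _ => ?_)
      simp only [Nat.add_eq_zero_iff, one_ne_zero, and_false, if_false, Nat.add_sub_cancel]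
      ring
    rw [h1]
    congr 1
    simp only [if_true, pow_zero, mul_one, Int.cast_neg]
    calc x * ((c M : R) * x ^ M) = (c M : R) * x ^ (M + 1) := by ring
      _ = -(c M : R) := by rw [hx]; ring
  · rw [Finset.sum_range_succ', Finset.sum_range_succ (fun i => (c i) ^ 2)]
    congr 1
    simp

/-- multiplication by `x^t` -/
private theorem TBD_pow (M : ℕ) {R : Type} [CommRing R] (x : R) (hx : x ^ (M + 1) = -1) (c : ℕ → ℤ) (t : ℕ) :
    ∃ c' : ℕ → ℤ, x ^ t * (∑ i ∈ range (M + 1), (c i : R) * x ^ i) = ∑ i ∈ range (M + 1), (c' i : R) * x ^ i ∧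
      ∑ i ∈ range (M + 1), (c' i) ^ 2 = ∑ i ∈ range (M + 1), (c i) ^ 2 := by
  induction t with
  | zero => exact ⟨c, by rw [pow_zero, one_mul], rfl⟩
  | succ t ih =>
    obtain ⟨c', h1, h2⟩ := ih
    obtain ⟨c'', h3, h4⟩ := TBD_mul M x hx c'
    refine ⟨c'', ?_, h4.trans h2⟩
    rw [pow_succ', mul_assoc, h1, h3]

/-- existence of a representation with small coefficients -/
private theorem TBD_ex (M : ℕ) {R : Type} [CommRing R] (x : R) (hx : x ^ (M + 1) = -1) (a : ℕ) (s : Multiset ℕ) :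
    ∃ c : ℕ → ℤ, (s.map (ff a x)).prod = ∑ i ∈ range (M + 1), (c i : R) * x ^ i ∧
      ∑ i ∈ range (M + 1), (c i) ^ 2 ≤ ((a : ℤ) + 1) ^ (2 * Multiset.card s) := by
  induction s using Multiset.induction_on with
  | empty =>
    refine ⟨fun i => if i = 0 then 1 else 0, ?_, ?_⟩
    · rw [Finset.sum_range_succ']
      simp
    · rw [Finset.sum_range_succ']
      simp
  | cons t s ih =>
    obtain ⟨c, h1, h2⟩ := ih
    obtain ⟨c', h3, h4⟩ := TBD_pow M x hx c t
    refine ⟨fun i => (a : ℤ) * c i - c' i, ?_, ?_⟩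
    · rw [Multiset.map_cons, Multiset.prod_cons, h1]
      unfold ff
      rw [sub_mul, h3, Finset.mul_sum, ← Finset.sum_sub_distrib]
      refine Finset.sum_congr rfl (fun i _ => ?_)
      push_cast
      ring
    · rw [Multiset.card_cons]
      have ha : (0 : ℤ) ≤ a := Int.natCast_nonneg a
      have h5 : ∑ i ∈ range (M + 1), ((a : ℤ) * c i - c' i) ^ 2 ≤
          ∑ i ∈ range (M + 1), (((a : ℤ) ^ 2 + a) * (c i) ^ 2 + ((a : ℤ) + 1) * (c' i) ^ 2) := by
        refine Finset.sum_le_sum (fun i _ => ?_)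
        nlinarith [mul_nonneg ha (sq_nonneg (c i + c' i))]
      rw [Finset.sum_add_distrib, ← Finset.mul_sum, ← Finset.mul_sum, h4] at h5
      calc ∑ i ∈ range (M + 1), ((a : ℤ) * c i - c' i) ^ 2
          ≤ ((a : ℤ) ^ 2 + a) * ∑ i ∈ range (M + 1), (c i) ^ 2 + ((a : ℤ) + 1) * ∑ i ∈ range (M + 1), (c i) ^ 2 := h5
        _ = ((a : ℤ) + 1) ^ 2 * ∑ i ∈ range (M + 1), (c i) ^ 2 := by ring
        _ ≤ ((a : ℤ) + 1) ^ 2 * ((a : ℤ) + 1) ^ (2 * Multiset.card s) :=
          mul_le_mul_of_nonneg_left h2 (sq_nonneg _)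
        _ = ((a : ℤ) + 1) ^ (2 * (Multiset.card s + 1)) := by ring

theorem TBD : TBD_stmt := by
  intro N R _ x hN hC a s c hc
  obtain ⟨M, rfl⟩ : ∃ M, N = M + 1 := ⟨N - 1, by omega⟩
  obtain ⟨⟨hx, hlin⟩, -, -⟩ := hC
  obtain ⟨c', h1, h2⟩ := TBD_ex M x hx a s
  have h3 : ∀ i, i < M + 1 → c i - c' i = 0 := by
    apply hlin (fun i => c i - c' i)
    have h4 : ∑ i ∈ range (M + 1), ((c i - c' i : ℤ) : R) * x ^ i =
        ∑ i ∈ range (M + 1), (c i : R) * x ^ i - ∑ i ∈ range (M + 1), (c' i : R) * x ^ i := by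
      rw [← Finset.sum_sub_distrib]
      refine Finset.sum_congr rfl (fun i _ => ?_)
      push_cast
      ring
    rw [h4, ← hc, ← h1, sub_self]
  have h5 : ∑ i ∈ range (M + 1), (c i) ^ 2 = ∑ i ∈ range (M + 1), (c' i) ^ 2 := by
    refine Finset.sum_congr rfl (fun i hi => ?_)
    have h6 := h3 i (Finset.mem_range.mp hi)
    have h7 : c i = c' i := by linarith
    rw [h7]
  rw [h5]
  exact h2

end Pool.Agent.UF
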